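import Pool.Agent.helper31.STH.Png

/-!
# Thin subgroups of SL(n, Z) with a unipotent subgroup isomorphic to Z^(n-2)
-/

set_option autoImplicit false

namespace Pool.Agent.STH

open Matrix Pool.Agent.H48SL Pool.Agent.UG

section group

variable {n : ℕ} (a b : Fin n)

/-- the vector with entries `4 c i` for `i ≠ a, b` and `0` for `i = a, b` -/
def ex (c : {i : Fin n // i ≠ a ∧ i ≠ b} → ℤ) : Fin n → ℤ := fun i =>
  if h : i ≠ a ∧ i ≠ b then 4 * c ⟨i, h⟩ else 0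

theorem ex_a (c : {i : Fin n // i ≠ a ∧ i ≠ b} → ℤ) : ex a b c a = 0 := by
  unfold ex
  rw [dif_neg]
  exact fun h => h.1 rfl

theorem ex_b (c : {i : Fin n // i ≠ a ∧ i ≠ b} → ℤ) : ex a b c b = 0 := by
  unfold ex
  rw [dif_neg]
  exact fun h => h.2 rfl

theorem ex_coe (c : {i : Fin n // i ≠ a ∧ i ≠ b} → ℤ) (i : {i : Fin n // i ≠ a ∧ i ≠ b}) :
    ex a b c i = 4 * c i := by
  unfold ex
  rw [dif_pos i.2]

theorem ex_add (c d : {i : Fin n // i ≠ a ∧ i ≠ b} → ℤ) : ex a b (c + d) = ex a b c + ex a b d := by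
  ext i
  rw [Pi.add_apply]
  unfold ex
  split_ifs with h
  · rw [Pi.add_apply]; ring
  · ring

theorem ex_zero : ex a b (0 : {i : Fin n // i ≠ a ∧ i ≠ b} → ℤ) = 0 := by
  ext i
  unfold ex
  split_ifs <;> simp

theorem ex_sq {c : {i : Fin n // i ≠ a ∧ i ≠ b} → ℤ} (hc : c ≠ 0) : 16 ≤ ex a b c ⬝ᵥ ex a b c := by
  obtain ⟨i, hi⟩ : ∃ i, c i ≠ 0 := by
    by_contra h
    push Not at h
    exact hc (funext h)
  have h1 : ex a b c i * ex a b c i ≤ ex a b c ⬝ᵥ ex a b c :=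
    Finset.single_le_sum (f := fun j => ex a b c j * ex a b c j) (fun j _ => mul_self_nonneg _)
      (Finset.mem_univ (i : Fin n))
  rw [ex_coe] at h1
  have h2 : 1 ≤ c i * c i := by
    have h3 : 0 < c i * c i := mul_self_pos.2 hi
    linarith
  linarith

variable {a b} in
/-- the horospherical group as a homomorphism -/
noncomputable def ubH (hab : a ≠ b) : Multiplicative ({i : Fin n // i ≠ a ∧ i ≠ b} → ℤ) →* SLZ n where
  toFun c := ub a b (ex a b c.toAdd)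
  map_one' := by
    show ub a b (ex a b 0) = 1
    rw [ex_zero, ub_zero]
  map_mul' c d := by
    show ub a b (ex a b (c.toAdd + d.toAdd)) = _
    rw [ex_add, ub_add (ex_a a b _) (ex_b a b _) (ex_a a b _) (ex_b a b _) hab]

variable {a b}

theorem ubH_apply (hab : a ≠ b) (c : Multiplicative ({i : Fin n // i ≠ a ∧ i ≠ b} → ℤ)) :
    ubH hab c = ub a b (ex a b c.toAdd) := rfl

theorem ub_b (hab : a ≠ b) {β : Fin n → ℤ} (ha : β a = 0) (hb : β b = 0) {i : Fin n} (hia : i ≠ a)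
    (hib : i ≠ b) : ((ub a b β : Matrix (Fin n) (Fin n) ℤ) *ᵥ Pi.single b 1) i = β i := by
  rw [ub_mulVec ha hb hab]
  simp [hia, hib]

theorem ub_a (hab : a ≠ b) {β : Fin n → ℤ} (ha : β a = 0) (hb : β b = 0) :
    (ub a b β : Matrix (Fin n) (Fin n) ℤ) *ᵥ Pi.single a 1 = Pi.single a 1 := by
  rw [ub_mulVec ha hb hab]
  have h1 : (Pi.single a 1 : Fin n → ℤ) b = 0 := by simp [hab.symm]
  have h2 : β ⬝ᵥ (Pi.single a 1 : Fin n → ℤ) = 0 := by simp [ha]
  rw [h1, h2]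
  simp

theorem ubH_inj (hab : a ≠ b) : Function.Injective (ubH hab) := by
  intro c d h
  rw [ubH_apply, ubH_apply] at h
  apply Multiplicative.toAdd.injective
  funext i
  have h1 := ub_b hab (ex_a a b c.toAdd) (ex_b a b c.toAdd) i.2.1 i.2.2
  have h2 := ub_b hab (ex_a a b d.toAdd) (ex_b a b d.toAdd) i.2.1 i.2.2
  rw [h, h2, ex_coe, ex_coe] at h1
  have h3 : (4 : ℤ) ≠ 0 := by norm_num
  exact (mul_left_cancel₀ h3 h1).symm

/-- the horospherical group -/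
noncomputable def PL (hab : a ≠ b) : Subgroup (SLZ n) := (ubH hab).range

/-- the group generated by the horospherical group and an elementary matrix -/
noncomputable def Hg (hab : a ≠ b) : Subgroup (SLZ n) := Subgroup.zpowers (xe b a 3) ⊔ PL hab

theorem PL_fix (hab : a ≠ b) {g : SLZ n} (hg : g ∈ PL hab) :
    (g : Matrix (Fin n) (Fin n) ℤ) *ᵥ Pi.single a 1 = Pi.single a 1 := by
  obtain ⟨c, rfl⟩ := hg
  exact ub_a hab (ex_a a b _) (ex_b a b _)

theorem PL_DP (hab : a ≠ b) {g : SLZ n} (hg : g ∈ PL hab) (hg1 : g ≠ 1) {w : Fin n → ℤ}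
    (hw : DZ a b w) : DP a b ((g : Matrix (Fin n) (Fin n) ℤ) *ᵥ w) := by
  obtain ⟨c, rfl⟩ := hg
  have hc : c.toAdd ≠ 0 := by
    intro h
    apply hg1
    rw [ubH_apply, h, ex_zero, ub_zero]
  exact DZ_DP hab hw (ex_a a b _) (ex_b a b _) (ex_sq a b hc)

/-- reduced words which begin with a power of the elementary matrix -/
inductive AW (hab : a ≠ b) : SLZ n → Prop
  | base (k : ℤ) (p : SLZ n) : k ≠ 0 → p ∈ PL hab → AW hab (xe b a 3 ^ k * p)
  | step (k : ℤ) (p g : SLZ n) : k ≠ 0 → p ∈ PL hab → p ≠ 1 → AW hab g → AW hab (xe b a 3 ^ k * p * g)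

theorem DP_ea (hab : a ≠ b) : DP a b (Pi.single a 1 : Fin n → ℤ) := by
  unfold DP mid
  have h1 : (Pi.single a 1 : Fin n → ℤ) b = 0 := by simp [hab.symm]
  have h2 : (Pi.single a 1 : Fin n → ℤ) a = 1 := by simp
  have h3 : (Pi.single a 1 : Fin n → ℤ) ⬝ᵥ (Pi.single a 1 : Fin n → ℤ) = 1 := by simp
  rw [h1, h2, h3]
  norm_num

theorem not_DZ_ea (hab : a ≠ b) : ¬ DZ a b (Pi.single a 1 : Fin n → ℤ) := by
  unfold DZ
  have h1 : (Pi.single a 1 : Fin n → ℤ) b = 0 := by simp [hab.symm]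
  have h2 : (Pi.single a 1 : Fin n → ℤ) a = 1 := by simp
  rw [h1, h2]
  norm_num

theorem AW_DZ (hab : a ≠ b) {g : SLZ n} (hg : AW hab g) :
    DZ a b ((g : Matrix (Fin n) (Fin n) ℤ) *ᵥ Pi.single a 1) := by
  induction hg with
  | base k p hk hp =>
    rw [Matrix.SpecialLinearGroup.coe_mul, ← mulVec_mulVec, PL_fix hab hp]
    exact DP_DZ hab (DP_ea hab) hk
  | step k p g hk hp hp1 _ ih =>
    rw [Matrix.SpecialLinearGroup.coe_mul, Matrix.SpecialLinearGroup.coe_mul, ← mulVec_mulVec,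
      ← mulVec_mulVec]
    exact DP_DZ hab (PL_DP hab hp hp1 ih) hk

/-- normal form -/
def NF (hab : a ≠ b) (h : SLZ n) : Prop := h ∈ PL hab ∨ ∃ p ∈ PL hab, ∃ g, AW hab g ∧ h = p * g

theorem NF_P (hab : a ≠ b) {p h : SLZ n} (hp : p ∈ PL hab) (hh : NF hab h) : NF hab (p * h) := by
  rcases hh with hh | ⟨q, hq, g, hg, rfl⟩
  · exact Or.inl ((PL hab).mul_mem hp hh)
  · exact Or.inr ⟨p * q, (PL hab).mul_mem hp hq, g, hg, (mul_assoc _ _ _).symm⟩

theorem NF_Z (hab : a ≠ b) (k : ℤ) {h : SLZ n} (hh : NF hab h) : NF hab (xe b a 3 ^ k * h) := by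
  rcases eq_or_ne k 0 with rfl | hk
  · rw [zpow_zero, one_mul]; exact hh
  rcases hh with hh | ⟨q, hq, g, hg, rfl⟩
  · exact Or.inr ⟨1, (PL hab).one_mem, _, AW.base k h hk hh, (one_mul _).symm⟩
  rcases eq_or_ne q 1 with rfl | hq1
  · rw [one_mul]
    cases hg with
    | base j p hj hp =>
      rw [← mul_assoc, ← _root_.zpow_add]
      rcases eq_or_ne (k + j) 0 with h0 | h0
      · rw [h0, zpow_zero, one_mul]; exact Or.inl hp
      · exact Or.inr ⟨1, (PL hab).one_mem, _, AW.base (k + j) p h0 hp, (one_mul _).symm⟩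
    | step j p g hj hp hp1 hg =>
      rw [mul_assoc (xe b a 3 ^ j), ← mul_assoc, ← _root_.zpow_add]
      rcases eq_or_ne (k + j) 0 with h0 | h0
      · rw [h0, zpow_zero, one_mul]; exact Or.inr ⟨p, hp, g, hg, rfl⟩
      · refine Or.inr ⟨1, (PL hab).one_mem, _, AW.step (k + j) p g h0 hp hp1 hg, ?_⟩
        rw [one_mul, mul_assoc]
  · refine Or.inr ⟨1, (PL hab).one_mem, _, AW.step k q g hk hq hq1 hg, ?_⟩
    rw [one_mul, mul_assoc]

theorem NF_all (hab : a ≠ b) {h : SLZ n} (hh : h ∈ Hg hab) : NF hab h := by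
  unfold Hg at hh
  rw [Subgroup.sup_eq_closure] at hh
  have key : ∀ x ∈ ((Subgroup.zpowers (xe b a 3) : Subgroup (SLZ n)) : Set (SLZ n)) ∪
      ((PL hab : Subgroup (SLZ n)) : Set (SLZ n)), ∀ y, NF hab y → NF hab (x * y) ∧ NF hab (x⁻¹ * y) := by
    intro x hx y hy
    rcases hx with hx | hx
    · obtain ⟨k, rfl⟩ := Subgroup.mem_zpowers_iff.1 hx
      refine ⟨NF_Z hab k hy, ?_⟩
      rw [← _root_.zpow_neg]
      exact NF_Z hab (-k) hy
    · exact ⟨NF_P hab hx hy, NF_P hab ((PL hab).inv_mem hx) hy⟩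
  induction hh using Subgroup.closure_induction_left with
  | one => exact Or.inl (PL hab).one_mem
  | mul_left x hx y _ ih => exact (key x hx y ih).1
  | inv_mul_cancel x hx y _ ih => exact (key x hx y ih).2

/-- an element of the group which fixes the vector `e_a` is in the horospherical group -/
theorem stab (hab : a ≠ b) {h : SLZ n} (hh : h ∈ Hg hab)
    (hf : (h : Matrix (Fin n) (Fin n) ℤ) *ᵥ Pi.single a 1 = Pi.single a 1) : h ∈ PL hab := by
  rcases NF_all hab hh with h1 | ⟨p, hp, g, hg, rfl⟩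
  · exact h1
  · exfalso
    rw [Matrix.SpecialLinearGroup.coe_mul, ← mulVec_mulVec] at hf
    have h1 : (g : Matrix (Fin n) (Fin n) ℤ) *ᵥ Pi.single a 1 = Pi.single a 1 := by
      have h2 := PL_fix hab ((PL hab).inv_mem hp)
      have h3 : ((p⁻¹ : SLZ n) : Matrix (Fin n) (Fin n) ℤ) * (p : Matrix (Fin n) (Fin n) ℤ) = 1 := by
        rw [← Matrix.SpecialLinearGroup.coe_mul, inv_mul_cancel, Matrix.SpecialLinearGroup.coe_one]
      rw [← hf, mulVec_mulVec, h3, one_mulVec, hf] at h2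
      exact h2
    have h4 := AW_DZ hab hg
    rw [h1] at h4
    exact not_DZ_ea hab h4

theorem xe_nat_pow {i j : Fin n} (h : i ≠ j) (k : ℕ) : xe i j 1 ^ k = xe i j (k : ℤ) := by
  unfold xe
  rw [← zpow_natCast, ← tv_zsmul_right (single_dot h 1), ← Pi.single_smul]
  congr 1
  rw [smul_eq_mul, mul_one]

/-- the index is infinite -/
theorem idx (hab : a ≠ b) : (Hg hab).index = 0 := by
  by_contra h0
  obtain ⟨k, hk, -, hm⟩ := Subgroup.exists_pow_mem_of_index_ne_zero h0 (xe a b 1 : SLZ n)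
  rw [xe_nat_pow hab] at hm
  have h1 : ((xe a b (k : ℤ) : SLZ n) : Matrix (Fin n) (Fin n) ℤ) *ᵥ Pi.single a 1 = Pi.single a 1 := by
    rw [xe_mulVec hab]
    simp [hab.symm]
  obtain ⟨c, hc⟩ := stab hab hm h1
  rw [ubH_apply] at hc
  have h2 : ∀ i : {i : Fin n // i ≠ a ∧ i ≠ b}, c.toAdd i = 0 := by
    intro i
    have h3 := ub_b hab (ex_a a b c.toAdd) (ex_b a b c.toAdd) i.2.1 i.2.2
    rw [hc, xe_mulVec hab, ex_coe] at h3
    simp [i.2.1, i.2.2] at h3
    exact h3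
  have h4 : c.toAdd = 0 := funext h2
  rw [h4, ex_zero, ub_zero] at hc
  have h5 : ((1 : SLZ n) : Matrix (Fin n) (Fin n) ℤ) *ᵥ Pi.single b 1 =
      ((xe a b (k : ℤ) : SLZ n) : Matrix (Fin n) (Fin n) ℤ) *ᵥ Pi.single b 1 := by rw [hc]
  rw [Matrix.SpecialLinearGroup.coe_one, one_mulVec, xe_mulVec hab] at h5
  have h6 := congrFun h5 a
  simp [hab] at h6
  omega

theorem PL_le (hab : a ≠ b) : PL hab ≤ Hg hab := le_sup_right

theorem Hg_FG (hab : a ≠ b) : (Hg hab).FG := by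
  unfold Hg
  apply Subgroup.FG.sup
  · exact ⟨{xe b a 3}, by rw [Finset.coe_singleton, Subgroup.zpowers_eq_closure]⟩
  · unfold PL
    rw [← Group.fg_iff_subgroup_fg]
    exact Group.fg_range _

theorem Hg_dense (hab : a ≠ b) (hex : ∃ i, i ≠ a ∧ i ≠ b) : ZDense (Hg hab) := by
  apply zdense hab hex (p := 3) (q := 4) (by norm_num) (by norm_num)
  · exact Subgroup.mem_sup_left (Subgroup.mem_zpowers _)
  · intro i hia hib
    apply PL_le hab
    refine ⟨Multiplicative.ofAdd (Pi.single ⟨i, hia, hib⟩ 1), ?_⟩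
    rw [ubH_apply]
    congr 1
    ext j
    rw [toAdd_ofAdd]
    unfold ex
    split_ifs with h
    · by_cases hj : j = i
      · subst hj
        simp
      · have h1 : (⟨j, h⟩ : {i : Fin n // i ≠ a ∧ i ≠ b}) ≠ ⟨i, hia, hib⟩ := by
          intro h2
          exact hj (congrArg Subtype.val h2)
        rw [Pi.single_eq_of_ne h1, Pi.single_eq_of_ne hj, mul_zero]
    · have hj : j ≠ i := by
        rintro rfl
        exact h ⟨hia, hib⟩
      rw [Pi.single_eq_of_ne hj]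

/-- the elements of the horospherical group are unipotent -/
theorem PL_unip (hab : a ≠ b) {g : SLZ n} (hg : g ∈ PL hab) :
    IsNilpotent ((g : Matrix (Fin n) (Fin n) ℤ) - 1) := by
  obtain ⟨c, rfl⟩ := hg
  rw [ubH_apply]
  set β := ex a b c.toAdd with hβ
  have ha : β a = 0 := ex_a a b _
  have hb : β b = 0 := ex_b a b _
  have hN : ∀ w : Fin n → ℤ, ((ub a b β : Matrix (Fin n) (Fin n) ℤ) - 1) *ᵥ w =
      w b • β + (2 * (β ⬝ᵥ w) + (β ⬝ᵥ β) * w b) • Pi.single a 1 := by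
    intro w
    rw [sub_mulVec, one_mulVec, ub_mulVec ha hb hab]
    module
  refine ⟨3, ?_⟩
  apply Matrix.ext_of_mulVec_single
  intro i
  obtain ⟨w, hw⟩ : ∃ w : Fin n → ℤ, w = Pi.single i 1 := ⟨_, rfl⟩
  rw [← hw, pow_succ, pow_two, ← mulVec_mulVec, ← mulVec_mulVec, zero_mulVec]
  have e1 : ∀ x y : ℤ, (x • β + y • Pi.single a 1 : Fin n → ℤ) b = 0 := by
    intro x y
    simp [hb, hab.symm]
  have e2 : ∀ x y : ℤ, β ⬝ᵥ (x • β + y • Pi.single a 1 : Fin n → ℤ) = x * (β ⬝ᵥ β) := by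
    intro x y
    rw [dotProduct_add, dotProduct_smul, dotProduct_smul, dotProduct_single, ha]
    simp
  rw [hN w, hN (w b • β + _), e1, e2, hN, e1, e2]
  simp

end group

theorem card_ab {n : ℕ} {a b : Fin n} (hab : a ≠ b) :
    Fintype.card {i : Fin n // i ≠ a ∧ i ≠ b} = n - 2 := by
  have h1 : Fintype.card {i : Fin n // i ≠ a ∧ i ≠ b} =
      (Finset.univ.filter fun i : Fin n => i ≠ a ∧ i ≠ b).card := Fintype.card_subtype _
  have h2 : (Finset.univ.filter fun i : Fin n => i ≠ a ∧ i ≠ b) = ({a, b} : Finset (Fin n))ᶜ := by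
    ext i
    simp
  rw [h1, h2, Finset.card_compl, Fintype.card_fin, Finset.card_pair hab]

/-- for every `n ≥ 3` there is a thin subgroup of `SL(n, ℤ)` with a unipotent subgroup isomorphic to `ℤ^(n-2)` -/
theorem sharp (n : ℕ) (hn : 3 ≤ n) : ∃ H : Subgroup (SLZ n), H.FG ∧ ZDense H ∧ H.index = 0 ∧
    ∃ P ≤ H, (∀ g ∈ P, IsNilpotent ((g : Matrix (Fin n) (Fin n) ℤ) - 1)) ∧
      Nonempty (P ≃* Multiplicative (Fin (n - 2) → ℤ)) := by
  obtain ⟨a, ha⟩ : ∃ a : Fin n, a.val = 0 := ⟨⟨0, by omega⟩, rfl⟩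
  obtain ⟨b, hb⟩ : ∃ b : Fin n, b.val = 1 := ⟨⟨1, by omega⟩, rfl⟩
  have hab : a ≠ b := by
    intro h
    rw [h] at ha
    omega
  have hex : ∃ i, i ≠ a ∧ i ≠ b := by
    refine ⟨⟨2, by omega⟩, ?_, ?_⟩
    · intro h
      rw [← h] at ha
      simp at ha
    · intro h
      rw [← h] at hb
      simp at hb
  refine ⟨Hg hab, Hg_FG hab, Hg_dense hab hex, idx hab, PL hab, PL_le hab,
    fun g hg => PL_unip hab hg, ?_⟩
  have e1 : Multiplicative ({i : Fin n // i ≠ a ∧ i ≠ b} → ℤ) ≃* PL hab :=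
    MonoidHom.ofInjective (ubH_inj hab)
  have e2 : {i : Fin n // i ≠ a ∧ i ≠ b} ≃ Fin (n - 2) := Fintype.equivFinOfCardEq (card_ab hab)
  have e3 : ({i : Fin n // i ≠ a ∧ i ≠ b} → ℤ) ≃+ (Fin (n - 2) → ℤ) :=
    (LinearEquiv.funCongrLeft ℤ ℤ e2.symm).toAddEquiv
  exact ⟨e1.symm.trans (AddEquiv.toMultiplicative e3)⟩

end Pool.Agent.STH
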