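import Pool.Agent.helper54.UG.Basic

/-!
# Zariski closure over the rational numbers; polynomial curves
-/

set_option autoImplicit false

namespace Pool.Agent.STH

open Matrix Pool.Agent.H48SL Pool.Agent.UG

/-- the rational matrix `M` is in the Zariski closure of `H` -/
def VQ {n : ℕ} (H : Subgroup (SLZ n)) (M : MQ n) : Prop :=
  ∀ P : MvPolynomial (Fin n × Fin n) ℚ,
    (∀ h ∈ H, MvPolynomial.eval (fun x : Fin n × Fin n => qg h x.1 x.2) P = 0) →
    MvPolynomial.eval (fun x : Fin n × Fin n => M x.1 x.2) P = 0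

theorem VQ_of_mem {n : ℕ} {H : Subgroup (SLZ n)} {h : SLZ n} (hh : h ∈ H) : VQ H (qg h) :=
  fun _ hP => hP h hh

/-- left translation of a polynomial -/
theorem transl_left {n : ℕ} (M : MQ n) (P : MvPolynomial (Fin n × Fin n) ℚ) :
    ∃ Q : MvPolynomial (Fin n × Fin n) ℚ, ∀ X : MQ n,
      MvPolynomial.eval (fun x : Fin n × Fin n => X x.1 x.2) Q =
        MvPolynomial.eval (fun x : Fin n × Fin n => (M * X) x.1 x.2) P := by
  refine ⟨MvPolynomial.bind₁ (fun x : Fin n × Fin n =>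
    ∑ k, MvPolynomial.C (M x.1 k) * MvPolynomial.X (k, x.2)) P, fun X => ?_⟩
  rw [MvPolynomial.eval, MvPolynomial.eval₂Hom_bind₁]
  congr 1
  congr 1
  ext x
  rw [Matrix.mul_apply]
  simp

/-- right translation of a polynomial -/
theorem transl_right {n : ℕ} (M : MQ n) (P : MvPolynomial (Fin n × Fin n) ℚ) :
    ∃ Q : MvPolynomial (Fin n × Fin n) ℚ, ∀ X : MQ n,
      MvPolynomial.eval (fun x : Fin n × Fin n => X x.1 x.2) Q =
        MvPolynomial.eval (fun x : Fin n × Fin n => (X * M) x.1 x.2) P := by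
  refine ⟨MvPolynomial.bind₁ (fun x : Fin n × Fin n =>
    ∑ k, MvPolynomial.X (x.1, k) * MvPolynomial.C (M k x.2)) P, fun X => ?_⟩
  rw [MvPolynomial.eval, MvPolynomial.eval₂Hom_bind₁]
  congr 1
  congr 1
  ext x
  rw [Matrix.mul_apply]
  simp

theorem VQ_mul {n : ℕ} {H : Subgroup (SLZ n)} {M N : MQ n} (hM : VQ H M) (hN : VQ H N) :
    VQ H (M * N) := by
  have h1 : ∀ h ∈ H, VQ H (qg h * N) := by
    intro h hh P hP
    obtain ⟨Q, hQ⟩ := transl_left (qg h) P
    rw [← hQ]
    apply hN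
    intro k hk
    rw [hQ, ← qg_mul]
    exact hP _ (H.mul_mem hh hk)
  intro P hP
  obtain ⟨Q, hQ⟩ := transl_right N P
  rw [← hQ]
  apply hM
  intro h hh
  rw [hQ]
  exact h1 h hh P hP

theorem VQ_zc {n : ℕ} {H : Subgroup (SLZ n)} {g : SLZ n} (h : VQ H (qg g)) : g ∈ Zc H := by
  rw [mem_Zc]
  intro F hF hFH
  obtain ⟨P, hP⟩ := IsPolyQ.cast hF
  have hP' : ∀ g : SLZ n, ((F g : ℤ) : ℚ) =
      MvPolynomial.eval (fun x : Fin n × Fin n => qg g x.1 x.2) P := hP
  have h1 : ((F g : ℤ) : ℚ) = 0 := by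
    rw [hP']
    apply h
    intro x hx
    rw [← hP', hFH x hx, Int.cast_zero]
  exact_mod_cast h1

/-- polynomial curves -/
theorem VQ_lim {n : ℕ} {H : Subgroup (SLZ n)} {f : ℚ → MQ n} (hf : PC f) {S : Set ℚ} (hS : S.Infinite)
    (h : ∀ x ∈ S, VQ H (f x)) (x₀ : ℚ) : VQ H (f x₀) := by
  intro P hP
  choose p hp using hf
  set Q : Polynomial ℚ := MvPolynomial.aeval (fun x : Fin n × Fin n => p x.1 x.2) P with hQ
  have key : ∀ t, MvPolynomial.eval (fun x : Fin n × Fin n => f t x.1 x.2) P = Q.eval t := by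
    intro t
    have h2 : (fun x : Fin n × Fin n => f t x.1 x.2) = fun x => (p x.1 x.2).eval t := by
      ext x
      exact hp x.1 x.2 t
    rw [h2, hQ]
    clear h2 hQ hP
    induction P using MvPolynomial.induction_on with
    | C c => simp
    | add p q hp hq => simp only [map_add, Polynomial.eval_add, hp, hq]
    | mul_X p i hp => simp only [map_mul, MvPolynomial.eval_X, Polynomial.eval_mul, hp, MvPolynomial.aeval_X]
  have hQ0 : Q = 0 := by
    apply Polynomial.eq_zero_of_infinite_isRoot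
    apply hS.mono
    intro t ht
    show Q.eval t = 0
    rw [← key]
    exact h t ht P hP
  rw [key, hQ0, Polynomial.eval_zero]

theorem inf_ne_zero : ({t : ℚ | t ≠ 0} : Set ℚ).Infinite := by
  have : {t : ℚ | t ≠ 0} = ({0} : Set ℚ)ᶜ := by ext; simp
  rw [this]
  exact Set.Finite.infinite_compl (Set.finite_singleton 0)

theorem inf_mul_nat (c : ℚ) (hc : c ≠ 0) : (Set.range fun k : ℕ => c * (k : ℚ)).Infinite := by
  apply Set.infinite_range_of_injective
  intro x y hxy
  have h1 := mul_left_cancel₀ hc hxy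
  exact_mod_cast h1

end Pool.Agent.STH
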