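import Pool.Agent.helper54.UG.Basic
import Pool.Agent.helper5.VA.MK

/-!
# Stabilisers of vectors in thin groups: if there is a transvection with the centre x, the stabiliser of x is virtually cyclic
-/

set_option autoImplicit false

namespace Pool.Agent.STH

open Matrix Pool.Agent.H48SL Pool.Agent.UG

/-- the stabiliser of the vector `x` in `H` -/
def Sx {n : ℕ} (H : Subgroup (SLZ n)) (x : Fin n → ℤ) : Subgroup (SLZ n) where
  carrier := {g | g ∈ H ∧ (g : Matrix (Fin n) (Fin n) ℤ) *ᵥ x = x}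
  mul_mem' := by
    rintro g h ⟨hg, hg'⟩ ⟨hh, hh'⟩
    refine ⟨H.mul_mem hg hh, ?_⟩
    rw [Matrix.SpecialLinearGroup.coe_mul, ← mulVec_mulVec, hh', hg']
  one_mem' := ⟨H.one_mem, by rw [Matrix.SpecialLinearGroup.coe_one, one_mulVec]⟩
  inv_mem' := by
    rintro g ⟨hg, hg'⟩
    refine ⟨H.inv_mem hg, ?_⟩
    have h3 : ((g⁻¹ : SLZ n) : Matrix (Fin n) (Fin n) ℤ) * (g : Matrix (Fin n) (Fin n) ℤ) = 1 := by
      rw [← Matrix.SpecialLinearGroup.coe_mul, inv_mul_cancel, Matrix.SpecialLinearGroup.coe_one]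
    conv_lhs => rw [← hg']
    rw [mulVec_mulVec, h3, one_mulVec]

theorem mem_Sx {n : ℕ} {H : Subgroup (SLZ n)} {x : Fin n → ℤ} {g : SLZ n} :
    g ∈ Sx H x ↔ g ∈ H ∧ (g : Matrix (Fin n) (Fin n) ℤ) *ᵥ x = x := Iff.rfl

/-- powers of the dual action -/
theorem vecMul_pow_eq {n : ℕ} (g : SLZ n) (k : ℕ) (w : Fin n → ℤ) :
    ((Matrix.vecMulLinear (g : Matrix (Fin n) (Fin n) ℤ)) ^ k) w = w ᵥ* ((g ^ k : SLZ n) : Matrix (Fin n) (Fin n) ℤ) := by
  induction k with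
  | zero => simp
  | succ k ih =>
    rw [pow_succ', Module.End.mul_apply, ih, Matrix.vecMulLinear_apply, vecMul_vecMul, ← Matrix.SpecialLinearGroup.coe_mul,
      ← pow_succ]

/-- unipotence on the quotient -/
theorem Cvc_fix {n : ℕ} {x φ w : Fin n → ℤ} {g : SLZ n} (h0 : φ ⬝ᵥ x = 0) (hg : g ∈ Cong (Fin n) 3) {k : ℕ}
    (hk : 1 ≤ k) {m : ℤ} (hkm : g ^ k = tv x φ ^ m) (hw : w ⬝ᵥ x = 0) :
    w ᵥ* (g : Matrix (Fin n) (Fin n) ℤ) = w := by
  obtain ⟨B, hB⟩ := mem_Cong.1 hg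
  have h1 := Pool.Agent.VA.MK (Fin n → ℤ) (Matrix.vecMulLinear (g : Matrix (Fin n) (Fin n) ℤ)) (by
    intro y
    refine ⟨y ᵥ* B, ?_⟩
    rw [Matrix.vecMulLinear_apply, hB, vecMul_add, vecMul_one, vecMul_smul, add_sub_cancel_left]
    rfl) k hk w (by
    rw [vecMul_pow_eq, hkm, ← tv_zsmul_right h0, tv_vecMul (by rw [smul_dotProduct, h0, smul_zero]), hw, zero_smul, add_zero])
  exact h1

theorem Cvc_par {n : ℕ} {x : Fin n → ℤ} {A : Matrix (Fin n) (Fin n) ℤ} (h : ∀ w : Fin n → ℤ, w ⬝ᵥ x = 0 → w ᵥ* A = 0)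
    (i i0 j : Fin n) : x i0 * A i j = x i * A i0 j := by
  have h1 := h (Pi.single i (x i0) - Pi.single i0 (x i)) (by
    rw [sub_dotProduct, single_dotProduct, single_dotProduct]
    ring)
  have h2 := congrFun h1 j
  rw [sub_vecMul, Pi.sub_apply, single_vecMul, single_vecMul, Pi.zero_apply] at h2
  have h3 : x i0 * A i j - x i * A i0 j = 0 := h2
  linarith

theorem Cvc_mul {n : ℕ} {x : Fin n → ℤ} (hx : x ≠ 0) {A A' : Matrix (Fin n) (Fin n) ℤ} (hA : A *ᵥ x = 0)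
    (h : ∀ w : Fin n → ℤ, w ⬝ᵥ x = 0 → w ᵥ* A' = 0) : A * A' = 0 := by
  obtain ⟨i0, hi0⟩ : ∃ i, x i ≠ 0 := by
    by_contra hc
    push Not at hc
    exact hx (funext hc)
  ext i j
  have h1 : x i0 * (A * A') i j = 0 := by
    rw [Matrix.mul_apply, Finset.mul_sum]
    have h2 : ∀ k, x i0 * (A i k * A' k j) = (A i k * x k) * A' i0 j := by
      intro k
      have := Cvc_par h k i0 j
      linear_combination A i k * this
    rw [Finset.sum_congr rfl fun k _ => h2 k, ← Finset.sum_mul]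
    have h3 : ∑ k, A i k * x k = 0 := congrFun hA i
    rw [h3, zero_mul]
  rw [Matrix.zero_apply]
  exact (mul_eq_zero.1 h1).resolve_left hi0

/-- **CVC** -/
theorem CVC {n : ℕ} (hn : 3 ≤ n) {H : Subgroup (SLZ n)} (hD : ZDense H) (hfi : ¬ H.FiniteIndex)
    {x φ : Fin n → ℤ} {z : SLZ n} (hz : z ∈ H) (hz1 : z ≠ 1)
    (hze : (z : Matrix (Fin n) (Fin n) ℤ) = 1 + vecMulVec x φ) :
    ∃ C : Subgroup (SLZ n), C ≤ Sx H x ∧ IsCyclic C ∧ C.relIndex (Sx H x) ≠ 0 := by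
  obtain ⟨hx, hφ, h0, hzt⟩ := tv_data hz1 hze
  have hpow : ∀ g ∈ Sx H x, ∃ k : ℕ, 1 ≤ k ∧ ∃ m : ℤ, g ^ k = z ^ m := by
    intro g hg
    by_contra hc
    push Not at hc
    apply hfi
    refine (final_coef (by simpa using hn) H x φ z g hz hg.1 hz1 hze ?_ (Or.inr hc)).1 hD
    rw [hg.2, h0]
    norm_num
  have hfix : ∀ g ∈ Sx H x ⊓ Cong (Fin n) 3, ∀ w : Fin n → ℤ, w ⬝ᵥ x = 0 →
      w ᵥ* ((g : Matrix (Fin n) (Fin n) ℤ) - 1) = 0 := by
    intro g hg w hw
    obtain ⟨k, hk, m, hkm⟩ := hpow g hg.1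
    rw [hzt] at hkm
    rw [vecMul_sub, vecMul_one, Cvc_fix h0 hg.2 hk hkm hw, sub_self]
  have hAx : ∀ g ∈ Sx H x, ((g : Matrix (Fin n) (Fin n) ℤ) - 1) *ᵥ x = 0 := by
    intro g hg
    rw [sub_mulVec, one_mulVec, hg.2, sub_self]
  obtain ⟨i0, hi0⟩ : ∃ i, x i ≠ 0 := by
    by_contra hc
    push Not at hc
    exact hx (funext hc)
  obtain ⟨j0, hj0⟩ : ∃ i, φ i ≠ 0 := by
    by_contra hc
    push Not at hc
    exact hφ (funext hc)
  let θ : (Sx H x ⊓ Cong (Fin n) 3 : Subgroup (SLZ n)) →* Multiplicative ℤ :=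
    { toFun := fun g => Multiplicative.ofAdd ((((g : SLZ n) : Matrix (Fin n) (Fin n) ℤ) - 1) i0 j0)
      map_one' := by simp
      map_mul' := by
        intro g g'
        rw [← ofAdd_add]
        congr 1
        have h1 := Cvc_mul hx (hAx g g.2.1) (hfix g' g'.2)
        have h2 : ((((g * g' : (Sx H x ⊓ Cong (Fin n) 3 : Subgroup (SLZ n))) : SLZ n) : Matrix (Fin n) (Fin n) ℤ) - 1) =
            (((g : SLZ n) : Matrix (Fin n) (Fin n) ℤ) - 1) + (((g' : SLZ n) : Matrix (Fin n) (Fin n) ℤ) - 1) +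
              (((g : SLZ n) : Matrix (Fin n) (Fin n) ℤ) - 1) * (((g' : SLZ n) : Matrix (Fin n) (Fin n) ℤ) - 1) := by
          rw [Subgroup.coe_mul, Matrix.SpecialLinearGroup.coe_mul]
          noncomm_ring
        rw [h2, h1, add_zero, Matrix.add_apply] }
  have hθ : Function.Injective θ := by
    rw [injective_iff_map_eq_one]
    intro g hg
    have hg' : (((g : SLZ n) : Matrix (Fin n) (Fin n) ℤ) - 1) i0 j0 = 0 := Multiplicative.ofAdd.injective hg
    set A : Matrix (Fin n) (Fin n) ℤ := ((g : SLZ n) : Matrix (Fin n) (Fin n) ℤ) - 1 with hA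
    have hAA : A * A = 0 := Cvc_mul hx (hAx g g.2.1) (hfix g g.2)
    have hgp : ∀ k : ℕ, (((g : SLZ n) ^ k : SLZ n) : Matrix (Fin n) (Fin n) ℤ) = 1 + (k : ℤ) • A := by
      intro k
      induction k with
      | zero => simp
      | succ k ih =>
        rw [pow_succ, Matrix.SpecialLinearGroup.coe_mul, ih]
        have h3 : ((g : SLZ n) : Matrix (Fin n) (Fin n) ℤ) = 1 + A := by rw [hA]; abel
        rw [h3, Matrix.mul_add, Matrix.add_mul, Matrix.add_mul, Matrix.smul_mul, Matrix.smul_mul, hAA, Matrix.mul_one,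
          Matrix.one_mul, Matrix.mul_one]
        push_cast
        module
    obtain ⟨k, hk, m, hkm⟩ := hpow g g.2.1
    rw [hzt, ← tv_zsmul_right h0] at hkm
    have h4 := hgp k
    rw [hkm, tv_coe (by rw [smul_dotProduct, h0, smul_zero])] at h4
    have h5 : vecMulVec x (m • φ) = (k : ℤ) • A := by
      have := add_left_cancel h4
      exact this
    have h6 := congrFun (congrFun h5 i0) j0
    rw [vecMulVec_apply, Matrix.smul_apply, hg', smul_zero, Pi.smul_apply, smul_eq_mul] at h6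
    have hm : m = 0 := by
      rcases mul_eq_zero.1 h6 with h7 | h7
      · exact absurd h7 hi0
      · exact (mul_eq_zero.1 h7).resolve_right hj0
    rw [hm, zero_smul] at h5
    have h8 : (k : ℤ) • A = 0 := by
      rw [← h5]
      ext i j
      simp
    have hk0 : (k : ℤ) ≠ 0 := by exact_mod_cast (by omega : k ≠ 0)
    have h9 : A = 0 := (smul_eq_zero.1 h8).resolve_left hk0
    apply Subtype.ext
    apply SL_ext
    rw [Subgroup.coe_one, Matrix.SpecialLinearGroup.coe_one]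
    exact sub_eq_zero.1 h9
  refine ⟨Sx H x ⊓ Cong (Fin n) 3, inf_le_left, isCyclic_of_injective θ hθ, ?_⟩
  rw [Subgroup.inf_relIndex_left]
  have hf : (Cong (Fin n) 3).FiniteIndex := cong_finiteIndex 3 (by norm_num)
  have hf2 : ((Cong (Fin n) 3).subgroupOf (Sx H x)).FiniteIndex := inferInstance
  exact hf2.index_ne_zero

end Pool.Agent.STH
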