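import Pool.Agent.helper31.STH.Clo

/-!
# Zariski density of the group generated by a horospherical group of SO(n-1,1) and an elementary matrix
-/

set_option autoImplicit false
set_option linter.unusedSimpArgs false

namespace Pool.Agent.STH

open Matrix Pool.Agent.H48SL Pool.Agent.UG

/-- The unipotent matrix of the vector `β`: `w ↦ w + (w b) β + (2 β·w + |β|² w b) e_a` for `β a = β b = 0`. -/
noncomputable def ub {n : ℕ} (a b : Fin n) (β : Fin n → ℤ) : SLZ n :=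
  tv (Pi.single a 1) ((2 : ℤ) • β - Pi.single b (β ⬝ᵥ β)) * tv β (Pi.single b 1)

/-- matrix units -/
def E {n : ℕ} (i j : Fin n) : MQ n := Matrix.single i j 1

theorem E_mul_same {n : ℕ} (i j k : Fin n) : (E i j : MQ n) * E j k = E i k := by
  unfold E
  rw [Matrix.single_mul_single_same, mul_one]

theorem E_mul_ne {n : ℕ} (i k : Fin n) {j j' : Fin n} (h : j ≠ j') : (E i j : MQ n) * E j' k = 0 := by
  unfold E
  rw [Matrix.single_mul_single_of_ne _ _ _ _ h]

theorem vmv_single {n : ℕ} (i j : Fin n) (x y : ℚ) :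
    vecMulVec (Pi.single i x) (Pi.single j y) = (x * y) • (E i j : MQ n) := by
  unfold E
  ext k l
  rw [vecMulVec_apply, Matrix.smul_apply, Matrix.single_apply, smul_eq_mul]
  by_cases h1 : k = i
  · subst h1
    by_cases h2 : l = j
    · subst h2; simp
    · have h3 : ¬ (k = k ∧ j = l) := fun h => h2 h.2.symm
      simp [h2, Ne.symm h2]
  · have h3 : ¬ (i = k ∧ j = l) := fun h => h1 h.1.symm
    simp [h1, h3]

/-- `U(λ) = 1 + λ E_ib + 2 λ E_ai + λ² E_ab` -/
def UU {n : ℕ} (a b i : Fin n) (x : ℚ) : MQ n :=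
  1 + x • E i b + (2 * x) • E a i + x ^ 2 • E a b

/-- `Z(t) = 1 + t E_ba` -/
def ZZ {n : ℕ} (a b : Fin n) (t : ℚ) : MQ n := 1 + t • E b a

theorem castV_single' {n : ℕ} (i : Fin n) (c : ℤ) :
    castV (Pi.single i c : Fin n → ℤ) = Pi.single i (c : ℚ) := by
  ext j
  by_cases h : j = i
  · subst h; simp [castV]
  · simp [castV, h]

theorem qg_xe {n : ℕ} {i j : Fin n} (h : i ≠ j) (c : ℤ) :
    qg (xe i j c) = 1 + (c : ℚ) • (E i j : MQ n) := by
  unfold xe
  rw [qg_tv (single_dot h c), castV_single', castV_single', vmv_single]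
  simp

theorem qg_ub {n : ℕ} {a b i : Fin n} (hab : a ≠ b) (hia : i ≠ a) (hib : i ≠ b) (c : ℤ) :
    qg (ub a b (Pi.single i c)) = UU a b i c := by
  unfold ub
  have h0 : (Pi.single i c : Fin n → ℤ) ⬝ᵥ Pi.single i c = c * c := by simp
  have h1 : ((2 : ℤ) • (Pi.single i c : Fin n → ℤ) - Pi.single b ((Pi.single i c : Fin n → ℤ) ⬝ᵥ Pi.single i c)) ⬝ᵥ
      (Pi.single a 1) = 0 := by
    simp [hia.symm, hab]
  have h2 : (Pi.single b 1 : Fin n → ℤ) ⬝ᵥ (Pi.single i c) = 0 := by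
    simp [hib]
  rw [qg_mul, qg_tv h1, qg_tv h2]
  have h3 : castV ((2 : ℤ) • (Pi.single i c : Fin n → ℤ) - Pi.single b ((Pi.single i c : Fin n → ℤ) ⬝ᵥ Pi.single i c))
      = Pi.single i (2 * (c : ℚ)) - Pi.single b ((c : ℚ) * c) := by
    rw [h0]
    ext j
    simp only [castV, Pi.sub_apply, Pi.smul_apply, Pi.single_apply, smul_eq_mul]
    split_ifs <;> push_cast <;> ring
  rw [h3, castV_single', castV_single', castV_single', vecMulVec_sub, vmv_single, vmv_single, vmv_single]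
  unfold UU
  simp only [Matrix.add_mul, Matrix.mul_add, Matrix.sub_mul, Matrix.mul_one, Matrix.one_mul, Matrix.smul_mul,
    Matrix.mul_smul, E_mul_same, E_mul_ne _ _ hib.symm, smul_zero, sub_zero]
  module

theorem PC_UU {n : ℕ} (a b i : Fin n) : PC (UU a b i) := by
  have h := (((PC.const (1 : MQ n)).add ((PC.const (E i b : MQ n)).smul Polynomial.X)).add
    ((PC.const (E a i : MQ n)).smul (2 * Polynomial.X))).add ((PC.const (E a b : MQ n)).smul (Polynomial.X ^ 2))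
  have e : (fun t : ℚ => 1 + (Polynomial.X : Polynomial ℚ).eval t • (E i b : MQ n) +
      (2 * Polynomial.X : Polynomial ℚ).eval t • (E a i : MQ n) +
      (Polynomial.X ^ 2 : Polynomial ℚ).eval t • (E a b : MQ n)) = UU a b i := by
    ext1 t
    unfold UU
    simp
  rw [← e]
  exact h

theorem PC_ZZ {n : ℕ} (a b : Fin n) : PC (ZZ a b) := by
  have h := (PC.const (1 : MQ n)).add ((PC.const (E b a : MQ n)).smul Polynomial.X)
  have e : (fun t : ℚ => 1 + (Polynomial.X : Polynomial ℚ).eval t • (E b a : MQ n)) = ZZ a b := by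
    ext1 t
    unfold ZZ
    simp
  rw [← e]
  exact h

section prods

variable {n : ℕ} {a b i : Fin n}

theorem UU_add (hab : a ≠ b) (hia : i ≠ a) (hib : i ≠ b) (x y : ℚ) :
    UU a b i x * UU a b i y = UU a b i (x + y) := by
  unfold UU
  simp only [Matrix.add_mul, Matrix.mul_add, Matrix.mul_one, Matrix.one_mul, Matrix.smul_mul,
    Matrix.mul_smul, E_mul_same, E_mul_ne _ _ hib, E_mul_ne _ _ hib.symm, E_mul_ne _ _ hia, E_mul_ne _ _ hia.symm,
    E_mul_ne _ _ hab, E_mul_ne _ _ hab.symm, smul_zero, add_zero, zero_add]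
  module

/-- the conjugate of `Z(t)`, in the parameter `x = 1 / λ`, with `t = s x⁴` -/
theorem conj_eq (hab : a ≠ b) (hia : i ≠ a) (hib : i ≠ b) (x s : ℚ) (hx : x ≠ 0) :
    UU a b i (x⁻¹) * ZZ a b (s * x ^ 4) * UU a b i (-x⁻¹) =
      1 + (s * x ^ 2) • E a a + (-2 * s * x) • E a i + s • E a b + (s * x ^ 3) • E i a +
        (-2 * s * x ^ 2) • E i i + (s * x) • E i b + (s * x ^ 4) • E b a + (-2 * s * x ^ 3) • E b i +
        (s * x ^ 2) • E b b := by
  unfold UU ZZ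
  simp only [Matrix.add_mul, Matrix.mul_add, Matrix.mul_one, Matrix.one_mul, Matrix.smul_mul,
    Matrix.mul_smul, E_mul_same, E_mul_ne _ _ hib, E_mul_ne _ _ hib.symm, E_mul_ne _ _ hia, E_mul_ne _ _ hia.symm,
    E_mul_ne _ _ hab, E_mul_ne _ _ hab.symm, smul_zero, add_zero, zero_add]
  match_scalars <;> field_simp <;> ring

/-- the curve `R(x)` -/
def RR (a b i : Fin n) (s x : ℚ) : MQ n :=
  1 + (s * x - s ^ 2 * x ^ 2) • E a a + (-2 * s + 2 * s ^ 2 * x) • E a i + (-s ^ 2) • E a b +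
    (s * x ^ 2) • E i a + (-2 * s * x) • E i i + s • E i b + (s * x ^ 3) • E b a +
    (-2 * s * x ^ 2) • E b i + (s * x) • E b b

theorem RR_eq (hab : a ≠ b) (hia : i ≠ a) (hib : i ≠ b) (x s : ℚ) (hx : x ≠ 0) :
    (1 + (-s * x⁻¹) • E a b) * (UU a b i (x⁻¹) * ZZ a b (s * x⁻¹ * x ^ 4) * UU a b i (-x⁻¹)) =
      RR a b i s x := by
  rw [conj_eq hab hia hib x (s * x⁻¹) hx]
  unfold RR
  simp only [Matrix.add_mul, Matrix.mul_add, Matrix.mul_one, Matrix.one_mul, Matrix.smul_mul,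
    Matrix.mul_smul, E_mul_same, E_mul_ne _ _ hib, E_mul_ne _ _ hib.symm, E_mul_ne _ _ hia, E_mul_ne _ _ hia.symm,
    E_mul_ne _ _ hab, E_mul_ne _ _ hab.symm, smul_zero, add_zero, zero_add]
  match_scalars <;> field_simp <;> ring

theorem RR_zero (a b i : Fin n) (s : ℚ) :
    RR a b i s 0 = 1 + (-2 * s) • E a i + (-s ^ 2) • E a b + s • E i b := by
  unfold RR
  match_scalars <;> simp

theorem fin1 (hab : a ≠ b) (hia : i ≠ a) (hib : i ≠ b) (s : ℚ) :
    UU a b i s * RR a b i s 0 * (1 + (-2 * s ^ 2) • E a b) = 1 + (2 * s) • E i b := by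
  rw [RR_zero]
  unfold UU
  simp only [Matrix.add_mul, Matrix.mul_add, Matrix.mul_one, Matrix.one_mul, Matrix.smul_mul,
    Matrix.mul_smul, E_mul_same, E_mul_ne _ _ hib, E_mul_ne _ _ hib.symm, E_mul_ne _ _ hia, E_mul_ne _ _ hia.symm,
    E_mul_ne _ _ hab, E_mul_ne _ _ hab.symm, smul_zero, add_zero, zero_add]
  module

theorem fin2 (hab : a ≠ b) (hia : i ≠ a) (hib : i ≠ b) (s : ℚ) :
    (1 + (-s) • E i b) * UU a b i s * (1 + (-s ^ 2) • E a b) = 1 + (2 * s) • E a i := by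
  unfold UU
  simp only [Matrix.add_mul, Matrix.mul_add, Matrix.mul_one, Matrix.one_mul, Matrix.smul_mul,
    Matrix.mul_smul, E_mul_same, E_mul_ne _ _ hib, E_mul_ne _ _ hib.symm, E_mul_ne _ _ hia, E_mul_ne _ _ hia.symm,
    E_mul_ne _ _ hab, E_mul_ne _ _ hab.symm, smul_zero, add_zero, zero_add]
  module

end prods

theorem PC_conj {n : ℕ} (a b i : Fin n) (s : ℚ) : PC (fun x : ℚ =>
      1 + (s * x ^ 2) • E a a + (-2 * s * x) • E a i + s • E a b + (s * x ^ 3) • E i a +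
        (-2 * s * x ^ 2) • E i i + (s * x) • E i b + (s * x ^ 4) • E b a + (-2 * s * x ^ 3) • E b i +
        (s * x ^ 2) • E b b) := by
  have hs : ∀ (c : ℚ) (k : ℕ) (M : MQ n), PC (fun x : ℚ => (c * x ^ k) • M) := by
    intro c k M
    have h := (PC.const M).smul (Polynomial.C c * Polynomial.X ^ k)
    simpa using h
  have h1 : ∀ (c : ℚ) (M : MQ n), PC (fun x : ℚ => (c * x) • M) := by
    intro c M
    have h := hs c 1 M
    simpa using h
  exact (((((((((PC.const (1 : MQ n)).add (hs s 2 (E a a))).add (h1 (-2 * s) (E a i))).add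
    (PC.const (s • E a b))).add (hs s 3 (E i a))).add (hs (-2 * s) 2 (E i i))).add (h1 s (E i b))).add
    (hs s 4 (E b a))).add (hs (-2 * s) 3 (E b i))).add (hs s 2 (E b b))

theorem PC_RR {n : ℕ} (a b i : Fin n) (s : ℚ) : PC (RR a b i s) := by
  have hs : ∀ (p : Polynomial ℚ) (f : ℚ → ℚ) (M : MQ n), (∀ x, f x = p.eval x) →
      PC (fun x : ℚ => f x • M) := by
    intro p f M hf
    have h := (PC.const M).smul p
    simp only [← hf] at h
    exact h
  open Polynomial in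
  exact (((((((((PC.const (1 : MQ n)).add
    (hs (C s * X - C s ^ 2 * X ^ 2) (fun x => s * x - s ^ 2 * x ^ 2) (E a a) (by intro x; simp))).add
    (hs (-2 * C s + 2 * C s ^ 2 * X) (fun x => -2 * s + 2 * s ^ 2 * x) (E a i) (by intro x; simp))).add
    (PC.const ((-s ^ 2) • E a b))).add
    (hs (C s * X ^ 2) (fun x => s * x ^ 2) (E i a) (by intro x; simp))).add
    (hs (-2 * C s * X) (fun x => -2 * s * x) (E i i) (by intro x; simp))).add (PC.const (s • E i b))).add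
    (hs (C s * X ^ 3) (fun x => s * x ^ 3) (E b a) (by intro x; simp))).add
    (hs (-2 * C s * X ^ 2) (fun x => -2 * s * x ^ 2) (E b i) (by intro x; simp))).add
    (hs (C s * X) (fun x => s * x) (E b b) (by intro x; simp))

theorem ZZ_pow {n : ℕ} {a b : Fin n} (hab : a ≠ b) (t : ℚ) (k : ℕ) :
    ZZ a b t ^ k = ZZ a b (t * k) := by
  induction k with
  | zero => simp [ZZ]
  | succ k ih =>
    rw [pow_succ, ih]
    unfold ZZ
    simp only [Matrix.add_mul, Matrix.mul_add, Matrix.mul_one, Matrix.one_mul, Matrix.smul_mul,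
      Matrix.mul_smul, E_mul_ne _ _ hab, smul_zero, add_zero]
    push_cast
    module

theorem UU_zero {n : ℕ} (a b i : Fin n) : UU a b i 0 = 1 := by simp [UU]

theorem UU_pow {n : ℕ} {a b i : Fin n} (hab : a ≠ b) (hia : i ≠ a) (hib : i ≠ b) (t : ℚ) (k : ℕ) :
    UU a b i t ^ k = UU a b i (t * k) := by
  induction k with
  | zero => simp [UU_zero]
  | succ k ih =>
    rw [pow_succ, ih, UU_add hab hia hib]
    congr 1
    push_cast
    ring

/-- the elementary matrices are in the Zariski closure -/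
theorem clo {n : ℕ} {H : Subgroup (SLZ n)} {a b i : Fin n} (hab : a ≠ b) (hia : i ≠ a) (hib : i ≠ b)
    {p q : ℤ} (hp : p ≠ 0) (hq : q ≠ 0) (h1 : xe b a p ∈ H) (h2 : ub a b (Pi.single i q) ∈ H) (t : ℚ) :
    VQ H (1 + t • E b a) ∧ VQ H (1 + t • E a b) ∧ VQ H (1 + t • E i b) ∧ VQ H (1 + t • E a i) := by
  have hp' : (p : ℚ) ≠ 0 := by exact_mod_cast hp
  have hq' : (q : ℚ) ≠ 0 := by exact_mod_cast hq
  have hZ : ∀ t : ℚ, VQ H (ZZ a b t) := by
    intro t
    apply VQ_lim (PC_ZZ a b) (inf_mul_nat p hp')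
    rintro _ ⟨k, rfl⟩
    have h3 : ZZ a b ((p : ℚ) * k) = qg ((xe b a p) ^ k) := by
      rw [qg_pow, qg_xe hab.symm, ← ZZ_pow hab]
      rfl
    rw [h3]
    exact VQ_of_mem (H.pow_mem h1 k)
  have hU : ∀ t : ℚ, VQ H (UU a b i t) := by
    intro t
    apply VQ_lim (PC_UU a b i) (inf_mul_nat q hq')
    rintro _ ⟨k, rfl⟩
    have h3 : UU a b i ((q : ℚ) * k) = qg ((ub a b (Pi.single i q)) ^ k) := by
      rw [qg_pow, qg_ub hab hia hib, UU_pow hab hia hib]
    rw [h3]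
    exact VQ_of_mem (H.pow_mem h2 k)
  have hab' : ∀ s : ℚ, VQ H (1 + s • E a b) := by
    intro s
    have h3 := VQ_lim (PC_conj a b i s) inf_ne_zero (H := H) (by
      intro x hx
      rw [← conj_eq hab hia hib x s hx]
      exact VQ_mul (VQ_mul (hU _) (hZ _)) (hU _)) 0
    have h4 : (1 + (s * (0 : ℚ) ^ 2) • E a a + (-2 * s * 0) • E a i + s • E a b + (s * 0 ^ 3) • E i a +
        (-2 * s * 0 ^ 2) • E i i + (s * 0) • E i b + (s * 0 ^ 4) • E b a + (-2 * s * 0 ^ 3) • E b i +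
        (s * 0 ^ 2) • E b b : MQ n) = 1 + s • E a b := by
      match_scalars <;> simp
    rw [← h4]
    exact h3
  have hR : ∀ s : ℚ, VQ H (RR a b i s 0) := by
    intro s
    apply VQ_lim (PC_RR a b i s) inf_ne_zero
    intro x hx
    rw [← RR_eq hab hia hib x s hx]
    exact VQ_mul (hab' _) (VQ_mul (VQ_mul (hU _) (hZ _)) (hU _))
  have hib' : ∀ s : ℚ, VQ H (1 + s • E i b) := by
    intro s
    have h3 := fin1 hab hia hib (s / 2)
    have h4 : (2 : ℚ) * (s / 2) = s := by ring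
    rw [h4] at h3
    rw [← h3]
    exact VQ_mul (VQ_mul (hU _) (hR _)) (hab' _)
  have hai' : ∀ s : ℚ, VQ H (1 + s • E a i) := by
    intro s
    have h3 := fin2 hab hia hib (s / 2)
    have h4 : (2 : ℚ) * (s / 2) = s := by ring
    rw [h4] at h3
    rw [← h3]
    exact VQ_mul (VQ_mul (hib' _) (hU _)) (hab' _)
  exact ⟨hZ t, hab' t, hib' t, hai' t⟩

/-- a commutator of elementary matrices -/
theorem comm_xe {n : ℕ} {K : Subgroup (SLZ n)} {i j k : Fin n} (hij : i ≠ j) (hjk : j ≠ k) (hik : i ≠ k)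
    {t : ℤ} (h1 : xe i j 1 ∈ K) (h2 : xe j k t ∈ K) : xe i k t ∈ K := by
  have e := tv_commutator (x := (Pi.single i 1 : Fin n → ℤ)) (α := Pi.single j 1) (y := Pi.single j 1)
    (β := Pi.single k t) (single_dot hij 1) (single_dot hjk t) (single_dot hik t)
  have h3 : ((Pi.single j 1 : Fin n → ℤ) ⬝ᵥ (Pi.single j 1 : Fin n → ℤ)) = 1 := by simp
  rw [h3, one_smul] at e
  have h4 : xe i k t = xe i j 1 * xe j k t * (xe i j 1)⁻¹ * (xe j k t)⁻¹ := e.symm
  rw [h4]
  exact K.mul_mem (K.mul_mem (K.mul_mem h1 h2) (K.inv_mem h1)) (K.inv_mem h2)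

/-- Zariski density -/
theorem zdense {n : ℕ} {H : Subgroup (SLZ n)} {a b : Fin n} (hab : a ≠ b) (hex : ∃ i, i ≠ a ∧ i ≠ b)
    {p q : ℤ} (hp : p ≠ 0) (hq : q ≠ 0) (h1 : xe b a p ∈ H)
    (h2 : ∀ i, i ≠ a → i ≠ b → ub a b (Pi.single i q) ∈ H) : ZDense H := by
  obtain ⟨i₀, hi₀a, hi₀b⟩ := hex
  have key : ∀ {i j : Fin n}, i ≠ j → ∀ t : ℤ, VQ H (1 + (t : ℚ) • E i j) → xe i j t ∈ Zc H := by
    intro i j hij t h
    apply VQ_zc
    rw [qg_xe hij]
    exact h
  have hba : ∀ t : ℤ, xe b a t ∈ Zc H := fun t =>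
    key hab.symm t (clo hab hi₀a hi₀b hp hq h1 (h2 _ hi₀a hi₀b) t).1
  have hab' : ∀ t : ℤ, xe a b t ∈ Zc H := fun t =>
    key hab t (clo hab hi₀a hi₀b hp hq h1 (h2 _ hi₀a hi₀b) t).2.1
  have hib : ∀ i, i ≠ a → i ≠ b → ∀ t : ℤ, xe i b t ∈ Zc H := fun i hia hib t =>
    key hib t (clo hab hia hib hp hq h1 (h2 _ hia hib) t).2.2.1
  have hai : ∀ i, i ≠ a → i ≠ b → ∀ t : ℤ, xe a i t ∈ Zc H := fun i hia hib t =>
    key hia.symm t (clo hab hia hib hp hq h1 (h2 _ hia hib) t).2.2.2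
  have hia : ∀ i, i ≠ a → i ≠ b → ∀ t : ℤ, xe i a t ∈ Zc H := fun i hia hib' t =>
    comm_xe hib' hab.symm hia (hib i hia hib' 1) (hba t)
  have hbi : ∀ i, i ≠ a → i ≠ b → ∀ t : ℤ, xe b i t ∈ Zc H := fun i hia hib' t =>
    comm_xe hab.symm hia.symm hib'.symm (hba 1) (hai i hia hib' t)
  have hij : ∀ i j, i ≠ j → i ≠ a → i ≠ b → j ≠ a → j ≠ b → ∀ t : ℤ, xe i j t ∈ Zc H :=
    fun i j hij hia' hib' hja hjb t => comm_xe hia' hja.symm hij (hia i hia' hib' 1) (hai j hja hjb t)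
  apply zdense_of_Zc
  rw [eq_top_iff, ← ES_univ (ι := Fin n)]
  unfold ES
  rw [Subgroup.closure_le]
  rintro g ⟨i, _, j, _, hne, t, rfl⟩
  show xe i j t ∈ Zc H
  by_cases c1 : i = a
  · subst c1
    by_cases c2 : j = b
    · subst c2; exact hab' t
    · exact hai j hne.symm c2 t
  · by_cases c2 : i = b
    · subst c2
      by_cases c3 : j = a
      · subst c3; exact hba t
      · exact hbi j c3 hne.symm t
    · by_cases c3 : j = a
      · subst c3; exact hia i c1 c2 t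
      · by_cases c4 : j = b
        · subst c4; exact hib i c1 c2 t
        · exact hij i j hne c1 c2 c3 c4 t

end Pool.Agent.STH
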