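import Pool.Agent.helper31.STH.Den

/-!
# The group generated by a horospherical group of SO(n-1,1) and an elementary matrix: ping-pong
-/

set_option autoImplicit false

namespace Pool.Agent.STH

open Matrix Pool.Agent.H48SL Pool.Agent.UG

/-- the inequality of the ping-pong -/
theorem pong (x A c m R : ℝ) (hR : 16 ≤ R) (hA : A ^ 2 < x ^ 2) (hm : m < x ^ 2) (hm0 : 0 ≤ m)
    (hc : c ^ 2 ≤ R * m) : A + 2 * c + R * x ≠ 0 ∧ m + 2 * x * c + R * x ^ 2 ≤ (A + 2 * c + R * x) ^ 2 ∧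
      x ^ 2 ≤ (A + 2 * c + R * x) ^ 2 := by
  set r := Real.sqrt R with hr
  have hr2 : r ^ 2 = R := Real.sq_sqrt (by linarith)
  have hr0 : 0 ≤ r := Real.sqrt_nonneg R
  have hr4 : 4 ≤ r := by
    by_contra h
    push Not at h
    nlinarith
  have hx0 : 0 < |x| := by
    have h1 : 0 < x ^ 2 := lt_of_le_of_lt (sq_nonneg A) hA
    exact abs_pos.2 (fun h => by rw [h] at h1; norm_num at h1)
  have hx2 : |x| ^ 2 = x ^ 2 := sq_abs x
  have hA' : |A| < |x| := sq_lt_sq.1 hA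
  have hc' : |c| ≤ r * |x| := by
    have h1 : c ^ 2 ≤ (r * |x|) ^ 2 := by
      rw [mul_pow, hr2, hx2]
      nlinarith
    have h2 := sq_le_sq.1 h1
    rwa [abs_of_nonneg (by positivity : 0 ≤ r * |x|)] at h2
  have h1 : R * |x| - 2 * |c| - |A| ≤ |A + 2 * c + R * x| := by
    have e1 : |R * x| = R * |x| := by rw [abs_mul, abs_of_nonneg (by linarith)]
    have e2 : R * x = (A + 2 * c + R * x) - (A + 2 * c) := by ring
    have e3 : |R * x| ≤ |A + 2 * c + R * x| + |A + 2 * c| := by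
      conv_lhs => rw [e2]
      exact abs_sub _ _
    have e4 : |A + 2 * c| ≤ |A| + 2 * |c| := by
      calc |A + 2 * c| ≤ |A| + |2 * c| := abs_add_le _ _
        _ = |A| + 2 * |c| := by rw [abs_mul, abs_of_nonneg (by norm_num : (0 : ℝ) ≤ 2)]
    linarith
  have h2 : (1 + r) * |x| ≤ |A + 2 * c + R * x| := by
    have e5 : (1 + r) * |x| ≤ R * |x| - 2 * (r * |x|) - |x| := by
      rw [← hr2]
      have e6 : (1 + r) ≤ r ^ 2 - 2 * r - 1 := by nlinarith
      nlinarith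
    linarith
  have h3 : |x| ≤ (1 + r) * |x| := by nlinarith
  have h4 : ((1 + r) * |x|) ^ 2 ≤ (A + 2 * c + R * x) ^ 2 := by
    rw [← sq_abs (A + 2 * c + R * x)]
    exact pow_le_pow_left₀ (by positivity) h2 2
  refine ⟨?_, ?_, ?_⟩
  · intro h
    rw [h, abs_zero] at h2
    nlinarith
  · refine le_trans ?_ h4
    have e7 : x * c ≤ |x| * (r * |x|) := by
      calc x * c ≤ |x * c| := le_abs_self _
        _ = |x| * |c| := abs_mul _ _
        _ ≤ |x| * (r * |x|) := mul_le_mul_of_nonneg_left hc' hx0.le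
    have e8 : ((1 + r) * |x|) ^ 2 = x ^ 2 + 2 * (|x| * (r * |x|)) + R * x ^ 2 := by
      rw [← hx2, ← hr2]; ring
    rw [e8]
    nlinarith
  · refine le_trans ?_ h4
    rw [← hx2]
    exact pow_le_pow_left₀ hx0.le h3 2

section group

variable {n : ℕ} {a b : Fin n}

theorem ub_mulVec {β : Fin n → ℤ} (ha : β a = 0) (hb : β b = 0) (hab : a ≠ b) (w : Fin n → ℤ) :
    (ub a b β : Matrix (Fin n) (Fin n) ℤ) *ᵥ w =
      w + w b • β + (2 * (β ⬝ᵥ w) + (β ⬝ᵥ β) * w b) • Pi.single a 1 := by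
  have h1 : ((2 : ℤ) • β - Pi.single b (β ⬝ᵥ β)) ⬝ᵥ (Pi.single a 1) = 0 := by
    simp [ha, hab]
  have h2 : (Pi.single b 1 : Fin n → ℤ) ⬝ᵥ β = 0 := by simp [hb]
  unfold ub
  rw [Matrix.SpecialLinearGroup.coe_mul, ← mulVec_mulVec, tv_mulVec h2, tv_mulVec h1]
  have h3 : (Pi.single b 1 : Fin n → ℤ) ⬝ᵥ w = w b := by simp
  have h4 : (((2 : ℤ) • β - Pi.single b (β ⬝ᵥ β)) ⬝ᵥ (w + w b • β)) = 2 * (β ⬝ᵥ w) + (β ⬝ᵥ β) * w b := by
    rw [sub_dotProduct, single_dotProduct, smul_dotProduct, dotProduct_add, dotProduct_smul]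
    simp only [smul_eq_mul, Pi.add_apply, Pi.smul_apply, hb]
    ring
  rw [h3, h4]

theorem ub_add {β γ : Fin n → ℤ} (ha : β a = 0) (hb : β b = 0) (ha' : γ a = 0) (hb' : γ b = 0)
    (hab : a ≠ b) : ub a b β * ub a b γ = ub a b (β + γ) := by
  apply SL_ext
  apply Matrix.ext_of_mulVec_single
  intro i
  rw [Matrix.SpecialLinearGroup.coe_mul, ← mulVec_mulVec, ub_mulVec ha hb hab, ub_mulVec ha' hb' hab,
    ub_mulVec (by simp [ha, ha']) (by simp [hb, hb']) hab]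
  obtain ⟨w, hw⟩ : ∃ w : Fin n → ℤ, w = Pi.single i 1 := ⟨_, rfl⟩
  rw [← hw]
  have e1 : (w + w b • γ + (2 * (γ ⬝ᵥ w) + (γ ⬝ᵥ γ) * w b) • Pi.single a 1 : Fin n → ℤ) b = w b := by
    simp [hb', hab.symm]
  have e2 : β ⬝ᵥ (w + w b • γ + (2 * (γ ⬝ᵥ w) + (γ ⬝ᵥ γ) * w b) • Pi.single a 1 : Fin n → ℤ) =
      β ⬝ᵥ w + w b * (β ⬝ᵥ γ) := by
    rw [dotProduct_add, dotProduct_add, dotProduct_smul, dotProduct_smul, dotProduct_single, ha]
    simp
  rw [e1, e2]
  have e3 : (β + γ) ⬝ᵥ (β + γ) = β ⬝ᵥ β + 2 * (β ⬝ᵥ γ) + γ ⬝ᵥ γ := by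
    rw [add_dotProduct, dotProduct_add, dotProduct_add, dotProduct_comm γ β]
    ring
  rw [e3, add_dotProduct]
  module

theorem ub_zero : ub a b (0 : Fin n → ℤ) = 1 := by
  unfold ub
  have h : ((2 : ℤ) • (0 : Fin n → ℤ) - Pi.single b ((0 : Fin n → ℤ) ⬝ᵥ 0)) = 0 := by
    ext i; simp
  rw [h, tv_zero_right, tv_zero_left, mul_one]

/-- `Z ^ k` -/
theorem zk_mulVec (hab : a ≠ b) (k : ℤ) (w : Fin n → ℤ) :
    ((xe b a 3 ^ k : SLZ n) : Matrix (Fin n) (Fin n) ℤ) *ᵥ w = w + (3 * k * w a) • Pi.single b 1 := by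
  have h1 : xe b a 3 ^ k = xe b a (3 * k) := by
    unfold xe
    rw [← tv_zsmul_right (single_dot hab.symm 3), ← Pi.single_smul]
    congr 1
    rw [smul_eq_mul, mul_comm]
  rw [h1, xe_mulVec hab.symm]

variable (a b) in
/-- the square of the norm of the middle part -/
def mid (w : Fin n → ℤ) : ℤ := w ⬝ᵥ w - w a ^ 2 - w b ^ 2

variable (a b) in
/-- the first set of the ping-pong -/
def DP (w : Fin n → ℤ) : Prop := w a ≠ 0 ∧ mid a b w ≤ w a ^ 2 ∧ w b ^ 2 ≤ w a ^ 2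

variable (a b) in
/-- the second set of the ping-pong -/
def DZ (w : Fin n → ℤ) : Prop := w a ^ 2 < w b ^ 2 ∧ mid a b w < w b ^ 2

theorem mid_cs (hab : a ≠ b) {β : Fin n → ℤ} (ha : β a = 0) (hb : β b = 0) (w : Fin n → ℤ) :
    0 ≤ mid a b w ∧ (β ⬝ᵥ w) ^ 2 ≤ (β ⬝ᵥ β) * mid a b w := by
  set w' : Fin n → ℤ := w - Pi.single a (w a) - Pi.single b (w b) with hw'
  have e1 : w' ⬝ᵥ w' = mid a b w := by
    rw [hw', mid]
    simp only [sub_dotProduct, dotProduct_sub, single_dotProduct, dotProduct_single, Pi.sub_apply, Pi.single_eq_same,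
      Pi.single_eq_of_ne hab, Pi.single_eq_of_ne hab.symm]
    ring
  have e2 : β ⬝ᵥ w' = β ⬝ᵥ w := by
    rw [hw']
    simp only [dotProduct_sub, dotProduct_single, ha, hb]
    ring
  have e3 : (β ⬝ᵥ w') ^ 2 ≤ (β ⬝ᵥ β) * (w' ⬝ᵥ w') := by
    have h := Finset.sum_mul_sq_le_sq_mul_sq Finset.univ β w'
    simp only [dotProduct]
    have e4 : ∀ v : Fin n → ℤ, ∑ i, v i * v i = ∑ i, v i ^ 2 := fun v =>
      Finset.sum_congr rfl fun i _ => (sq (v i)).symm
    rw [e4, e4]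
    exact h
  rw [← e1, ← e2]
  refine ⟨?_, e3⟩
  exact Finset.sum_nonneg fun i _ => mul_self_nonneg (w' i)

theorem DP_DZ (hab : a ≠ b) {w : Fin n → ℤ} (hw : DP a b w) {k : ℤ} (hk : k ≠ 0) :
    DZ a b (((xe b a 3 ^ k : SLZ n) : Matrix (Fin n) (Fin n) ℤ) *ᵥ w) := by
  obtain ⟨h0, h1, h2⟩ := hw
  rw [zk_mulVec hab]
  set c := 3 * k * w a with hc
  have ea : (w + c • Pi.single b 1 : Fin n → ℤ) a = w a := by simp [hab]
  have eb : (w + c • Pi.single b 1 : Fin n → ℤ) b = w b + c := by simp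
  have em : mid a b (w + c • Pi.single b 1) = mid a b w := by
    unfold mid
    rw [ea, eb]
    simp only [add_dotProduct, dotProduct_add, smul_dotProduct, dotProduct_smul, single_dotProduct,
      dotProduct_single, Pi.single_eq_same, smul_eq_mul, Pi.add_apply, Pi.smul_apply]
    ring
  have h3 : w a ^ 2 < (w b + c) ^ 2 := by
    have h4 : |w b| ≤ |w a| := sq_le_sq.1 h2
    have h5 : 3 * |w a| ≤ |c| := by
      rw [hc, abs_mul, abs_mul]
      have h6 : 1 ≤ |k| := Int.one_le_abs hk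
      have h7 : |(3 : ℤ)| = 3 := by norm_num
      rw [h7]
      nlinarith [abs_nonneg (w a)]
    have h8 : |c| ≤ |w b + c| + |w b| := by
      have h9 : c = (w b + c) - w b := by ring
      conv_lhs => rw [h9]
      exact abs_sub _ _
    have h10 : 0 < |w a| := abs_pos.2 h0
    apply sq_lt_sq.2
    linarith
  refine ⟨?_, ?_⟩
  · rw [ea, eb]; exact h3
  · rw [em, eb]; exact lt_of_le_of_lt h1 h3

theorem DZ_DP (hab : a ≠ b) {w : Fin n → ℤ} (hw : DZ a b w) {β : Fin n → ℤ} (ha : β a = 0)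
    (hb : β b = 0) (hR : 16 ≤ β ⬝ᵥ β) :
    DP a b ((ub a b β : Matrix (Fin n) (Fin n) ℤ) *ᵥ w) := by
  obtain ⟨h1, h2⟩ := hw
  obtain ⟨hm, hcs⟩ := mid_cs hab ha hb w
  rw [ub_mulVec ha hb hab]
  set c := β ⬝ᵥ w with hc
  set R := β ⬝ᵥ β with hRd
  set v := w + w b • β + (2 * c + R * w b) • Pi.single a 1 with hv
  have ea : v a = w a + 2 * c + R * w b := by
    rw [hv]; simp [ha]; ring
  have eb : v b = w b := by
    rw [hv]; simp [hb, hab.symm]
  have em : mid a b v = mid a b w + 2 * w b * c + R * w b ^ 2 := by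
    have e1 : v ⬝ᵥ v = w ⬝ᵥ w + 2 * w b * c + R * w b ^ 2 + 2 * (2 * c + R * w b) * w a +
        (2 * c + R * w b) ^ 2 := by
      rw [hv]
      simp only [add_dotProduct, dotProduct_add, smul_dotProduct, dotProduct_smul, single_dotProduct,
        dotProduct_single, Pi.single_eq_same, smul_eq_mul, ha, dotProduct_comm w β, ← hc, ← hRd, Pi.add_apply,
        Pi.smul_apply]
      ring
    unfold mid
    rw [ea, eb, e1]
    ring
  have key := pong (w b : ℝ) (w a) c (mid a b w) R (by exact_mod_cast hR) (by exact_mod_cast h1)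
    (by exact_mod_cast h2) (by exact_mod_cast hm) (by exact_mod_cast hcs)
  obtain ⟨k1, k2, k3⟩ := key
  refine ⟨?_, ?_, ?_⟩
  · rw [ea]; exact_mod_cast k1
  · rw [em, ea]; exact_mod_cast k2
  · rw [ea, eb]; exact_mod_cast k3

end group

end Pool.Agent.STH
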